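import Pool.Agent.K1H73.ON.Stm

/-!
# Project ON, piece HE: the exit edge and the allowed hexagons
-/

set_option autoImplicit false

namespace Pool.Agent.K1H39.ON

open Pool.Agent.K1H73.ON

theorem mem_of_edge {D : Finset V} {a b : V} {ω : Finset (Sym2 V)} (h : IsCfg D a b ω) {u s : V}
    (hus : s(u, s) ∈ ω) : (Nbr u s ∨ Nbr s u) ∧ u ∈ D ∧ s ∈ D := by
  obtain ⟨p, q, e, hn, hp, hq⟩ := h.1 _ hus
  rw [Sym2.eq_iff] at e
  rcases e with ⟨rfl, rfl⟩ | ⟨rfl, rfl⟩
  · exact ⟨Or.inl hn, hp, hq⟩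
  · exact ⟨Or.inr hn, hq, hp⟩

theorem nbr_coord {p q : V} (h : Nbr p q ∨ Nbr q p) :
    (q.1 = p.1 + 1 ∧ q.2 = p.2) ∨ (q.1 = p.1 - 1 ∧ q.2 = p.2) ∨
    (q.1 = p.1 ∧ q.2 = p.2 + 1 ∧ (p.1 + p.2) % 2 = 0) ∨
    (q.1 = p.1 ∧ q.2 = p.2 - 1 ∧ (q.1 + q.2) % 2 = 0) := by
  unfold Nbr at h
  simp only [Prod.ext_iff, Prod.fst_sub, Prod.snd_sub, Int.even_iff] at h
  omega

theorem cor_bd (c : V) (i : ℕ) : c.1 ≤ (cor c i).1 ∧ (cor c i).1 ≤ c.1 + 2 ∧
    c.2 ≤ (cor c i).2 ∧ (cor c i).2 ≤ c.2 + 1 := by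
  unfold cor
  split <;> simp

section

variable {K : ℕ} {D : Finset V} {a b : V} {k : ℤ}

theorem good (h0 : Set0 K D a b) (hk : 1 ≤ k) (hk' : k ≤ 3 * K)
    {v : V} (h1 : v ∉ R k) (h2 : v ∈ R (k + 3)) (h3 : 0 ≤ v.2) :
    v ∈ D ∧ v ∉ R k ∧ v ∈ R (k + 3) ∧ v ≠ a ∧ v ≠ b := by
  obtain ⟨hF, ha2, ha1, hb, hbb⟩ := h0
  have h2' : v.2 < k + 3 ∧ v.1 + v.2 < 2 * (k + 3) ∧ v.2 - v.1 < 2 * (k + 3) := h2
  have habs : |v.1| ≤ 6 * (K : ℤ) + 20 := by
    rw [abs_le]
    constructor <;> omega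
  have hy : v.2 ≤ 3 * (K : ℤ) + 10 := by omega
  refine ⟨(hF v habs hy).2 h3, h1, h2, ?_, ?_⟩
  · rintro rfl
    apply h1
    show v.2 < k ∧ v.1 + v.2 < 2 * k ∧ v.2 - v.1 < 2 * k
    omega
  · rintro rfl
    exact hbb ⟨habs, hy⟩

theorem hexgood (h0 : Set0 K D a b) (hk : 1 ≤ k) (hk' : k ≤ 3 * K) (c : V)
    (he : (c.1 + c.2) % 2 = 0) (hy : 0 ≤ c.2) (hy2 : c.2 < k + 2)
    (hx1 : c.1 + c.2 < 2 * k + 3) (hx2 : c.2 - c.1 < 2 * k + 5)
    (hout : k ≤ c.2 ∨ 2 * k ≤ c.1 + c.2 ∨ 2 * k + 2 ≤ c.2 - c.1) :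
    Even (c.1 + c.2) ∧ ∀ i < 6, cor c i ∈ D ∧ cor c i ∉ R k ∧ cor c i ∈ R (k + 3) ∧
      cor c i ≠ a ∧ cor c i ≠ b := by
  refine ⟨Int.even_iff.2 he, fun i _ => ?_⟩
  obtain ⟨b1, b2, b3, b4⟩ := cor_bd c i
  refine good h0 hk hk' ?_ ?_ ?_
  · show ¬ ((cor c i).2 < k ∧ (cor c i).1 + (cor c i).2 < 2 * k ∧
      (cor c i).2 - (cor c i).1 < 2 * k)
    omega
  · show (cor c i).2 < k + 3 ∧ (cor c i).1 + (cor c i).2 < 2 * (k + 3) ∧
      (cor c i).2 - (cor c i).1 < 2 * (k + 3)
    omega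
  · omega

/-- no vertex of row `-1` near the origin -/
theorem no_below (h0 : Set0 K D a b) (hk' : k ≤ 3 * K) {v : V} (hv : v ∈ D)
    (h1 : v.1 ≤ 2 * k + 1) (h2 : -(2 * k + 1) ≤ v.1) (h3 : v.2 = -1) : False := by
  obtain ⟨hF, -⟩ := h0
  have habs : |v.1| ≤ 6 * (K : ℤ) + 20 := by
    rw [abs_le]
    constructor <;> omega
  have := (hF v habs (by omega)).1 hv
  omega

theorem nonneg {ω : Finset (Sym2 V)} (h0 : Set0 K D a b) (hc : IsCfg D a b ω)
    (hk' : k ≤ 3 * K) {ω' : Finset (Sym2 V)} (hsub : ω' ⊆ ω)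
    (hR : ∀ e ∈ ω', ∀ v ∈ e, v ∈ R k) {u : V} (hu : Conn ω' a u) : 0 ≤ u.2 := by
  have key : ∀ {x y : V} (p : (SimpleGraph.fromEdgeSet (ω' : Set (Sym2 V))).Walk x y),
      0 ≤ x.2 → 0 ≤ y.2 := by
    intro x y p
    induction p with
    | nil => exact id
    | @cons x z y h p ih =>
      intro hx
      apply ih
      rw [SimpleGraph.fromEdgeSet_adj] at h
      have h1 : s(x, z) ∈ ω' := by exact_mod_cast h.1
      obtain ⟨hn, -, hzD⟩ := mem_of_edge hc (hsub h1)
      have hxR : x.2 < k ∧ x.1 + x.2 < 2 * k ∧ x.2 - x.1 < 2 * k :=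
        hR _ h1 x (Sym2.mem_mk_left _ _)
      have hco := nbr_coord hn
      by_contra hz
      exact no_below h0 hk' hzD (by omega) (by omega) (by omega)
  obtain ⟨p⟩ := hu
  exact key p (by rw [h0.2.1])

end

theorem t_HE : HE := by
  intro K D a b ω k h0 hc hk hk' hE c
  have hcdef : c = crn (ex a ω k) := rfl
  clear_value c
  obtain ⟨hu, hs, hus, ω', hsub, hR, hcon⟩ := hE
  have hu2 := nonneg h0 hc hk' hsub hR hcon
  obtain ⟨hn, huD, hsD⟩ := mem_of_edge hc hus
  have hco := nbr_coord hn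
  clear hR hcon hn
  generalize ex a ω k = p at *
  obtain ⟨⟨u1, u2⟩, ⟨s1, s2⟩⟩ := p
  simp only at hcdef hu hs hus hu2 hco huD hsD
  have hu' : u2 < k ∧ u1 + u2 < 2 * k ∧ u2 - u1 < 2 * k := hu
  have hs' : ¬ (s2 < k ∧ s1 + s2 < 2 * k ∧ s2 - s1 < 2 * k) := hs
  rcases hco with ⟨e1, e2⟩ | ⟨e1, e2⟩ | ⟨e1, e2, e3⟩ | ⟨e1, e2, e3⟩
  · -- right
    right
    left
    have hsum : s1 + s2 = 2 * k := by omega
    have hc' : c = (s1, s2) := by
      rw [hcdef]
      simp only [crn]
      rw [if_neg (by simpa using e2), if_pos e1]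
    subst hc'
    refine ⟨?_, ?_, ?_⟩
    · have : out (s1, s2) 0 = s((u1, u2), (s1, s2)) := by
        show s((s1 - 1, s2), (s1, s2)) = s((u1, u2), (s1, s2))
        have h1 : ((s1 - 1, s2) : V) = (u1, u2) := Prod.ext (by simp; omega) (by simp; omega)
        rw [h1]
      rw [this]
      exact hus
    · intro c' hc'
      simp only [Finset.mem_insert, Finset.mem_singleton] at hc'
      rcases hc' with rfl | rfl | rfl
      · exact hexgood h0 hk hk' ((s1, s2) + (2, 0)) (by simp; omega) (by simp; omega)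
          (by simp; omega) (by simp; omega) (by simp; omega) (by simp; omega)
      · exact hexgood h0 hk hk' ((s1, s2) + (1, 1)) (by simp; omega) (by simp; omega)
          (by simp; omega) (by simp; omega) (by simp; omega) (by simp; omega)
      · exact hexgood h0 hk hk' ((s1, s2) + (-1, 1)) (by simp; omega) (by simp; omega)
          (by simp; omega) (by simp; omega) (by simp; omega) (by simp; omega)
    · by_cases h1 : 1 ≤ s2
      · right
        exact hexgood h0 hk hk' ((s1, s2) + (1, -1)) (by simp; omega) (by simp; omega)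
          (by simp; omega) (by simp; omega) (by simp; omega) (by simp; omega)
      · left
        intro hmem
        have hm : s((s1 + 1, s2 - 1), (s1 + 1, s2)) ∈ ω := hmem
        obtain ⟨-, hD, -⟩ := mem_of_edge hc hm
        exact no_below h0 hk' hD (by simp; omega) (by simp; omega) (by simp; omega)
  · -- left
    right
    right
    have hsum : s2 - s1 = 2 * k := by omega
    have hc' : c = (s1 - 2, s2) := by
      rw [hcdef]
      simp only [crn]
      rw [if_neg (by simpa using e2), if_neg (by omega)]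
    subst hc'
    refine ⟨?_, ?_, ?_⟩
    · have : out (s1 - 2, s2) 2 = s((u1, u2), (s1, s2)) := by
        show s((s1 - 2 + 3, s2), (s1 - 2 + 2, s2)) = s((u1, u2), (s1, s2))
        have h1 : ((s1 - 2 + 3, s2) : V) = (u1, u2) := Prod.ext (by simp; omega) (by simp; omega)
        have h2 : ((s1 - 2 + 2, s2) : V) = (s1, s2) := Prod.ext (by simp) rfl
        rw [h1, h2]
      rw [this]
      exact hus
    · intro c' hc'
      simp only [Finset.mem_insert, Finset.mem_singleton] at hc'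
      rcases hc' with rfl | rfl | rfl
      · exact hexgood h0 hk hk' ((s1 - 2, s2) + (1, 1)) (by simp; omega) (by simp; omega)
          (by simp; omega) (by simp; omega) (by simp; omega) (by simp; omega)
      · exact hexgood h0 hk hk' ((s1 - 2, s2) + (-1, 1)) (by simp; omega) (by simp; omega)
          (by simp; omega) (by simp; omega) (by simp; omega) (by simp; omega)
      · exact hexgood h0 hk hk' ((s1 - 2, s2) + (-2, 0)) (by simp; omega) (by simp; omega)
          (by simp; omega) (by simp; omega) (by simp; omega) (by simp; omega)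
    · by_cases h1 : 1 ≤ s2
      · right
        exact hexgood h0 hk hk' ((s1 - 2, s2) + (-1, -1)) (by simp; omega) (by simp; omega)
          (by simp; omega) (by simp; omega) (by simp; omega) (by simp; omega)
      · left
        intro hmem
        have hm : s((s1 - 2 + 1, s2 - 1), (s1 - 2 + 1, s2)) ∈ ω := hmem
        obtain ⟨-, hD, -⟩ := mem_of_edge hc hm
        exact no_below h0 hk' hD (by simp; omega) (by simp; omega) (by simp; omega)
  · -- up
    left
    have hsk : s2 = k := by omega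
    have hc' : c = (s1 - 1, s2) := by
      rw [hcdef]
      simp only [crn]
      rw [if_pos (by omega)]
    subst hc'
    refine ⟨?_, ?_⟩
    · have : out (s1 - 1, s2) 1 = s((u1, u2), (s1, s2)) := by
        show s((s1 - 1 + 1, s2 - 1), (s1 - 1 + 1, s2)) = s((u1, u2), (s1, s2))
        have h1 : ((s1 - 1 + 1, s2 - 1) : V) = (u1, u2) := Prod.ext (by simp; omega) (by simp; omega)
        have h2 : ((s1 - 1 + 1, s2) : V) = (s1, s2) := Prod.ext (by simp) rfl
        rw [h1, h2]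
      rw [this]
      exact hus
    · intro c' hc'
      simp only [Finset.mem_insert, Finset.mem_singleton] at hc'
      rcases hc' with rfl | rfl | rfl | rfl
      · exact hexgood h0 hk hk' ((s1 - 1, s2) + (2, 0)) (by simp; omega) (by simp; omega)
          (by simp; omega) (by simp; omega) (by simp; omega) (by simp; omega)
      · exact hexgood h0 hk hk' ((s1 - 1, s2) + (1, 1)) (by simp; omega) (by simp; omega)
          (by simp; omega) (by simp; omega) (by simp; omega) (by simp; omega)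
      · exact hexgood h0 hk hk' ((s1 - 1, s2) + (-1, 1)) (by simp; omega) (by simp; omega)
          (by simp; omega) (by simp; omega) (by simp; omega) (by simp; omega)
      · exact hexgood h0 hk hk' ((s1 - 1, s2) + (-2, 0)) (by simp; omega) (by simp; omega)
          (by simp; omega) (by simp; omega) (by simp; omega) (by simp; omega)
  · -- down
    exfalso
    omega

end Pool.Agent.K1H39.ON
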